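import Pool.Agent.MWLQ.StmtsA
import Pool.Agent.MWGQ.StmtsD
import Pool.Agent.MWGP.Stmts

/-!
# MWLQ, part B: instances, covering, the pentagon, assembly (rows)

MP_23468a_al, all periods.  `W = p ++ ((wd n σ m d g).flatMap f ++ q)` is an instance of one of the
four words; `wd n σ m d g = wb n m d g ++ tl σ`, `wb n m d g = N0 n m ++ ([0] or 0^(n+1)) ++ Nx n m g ++ [0]`.
Every row is the twin of the (proved) row of MWLE with the same name: copy the file (table mwle,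
column path) and adapt it.  The rows TWC .. GDA are pure combinatorics of lists (no identities).
`(List.replicate k c).flatMap f = pw k (f c)` (by definition up to `List.flatMap_replicate` or
induction).
-/

namespace Pool.Agent.MWLQ

open Pool.Agent.Helper14_MV
open Pool.Agent.Helper2_MV (RR)
open Pool.Agent.MWK (pre)
open Pool.Agent.MWF (gaml)
open Pool.Agent.MWGN (nn Tau gh)
open Pool.Agent.MWGQ (pw Z Gn E0 A0 P0)
open Pool.Agent.MWLE (pin sep con tl tll Sg t1 Fc Fb Fy Fx Fu Fz rz sf k0)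

/-- TWC (easy-medium).  Multiplicities in the words.  Twin of MWLE.TWC (`n + 1 ≥ 2`; in `wb` with
`g = true` there are additional letters `1`). -/
def TwcStmt : Prop := ∀ n : ℕ, 1 ≤ n → ∀ (σ τ : List ℕ) (m : ℕ), Sg σ τ m → ∀ d g : Bool,
  (∀ c ∈ wb n m d g, 2 ≤ (wd n σ m d g).count c) ∧
  (∀ c ∈ wb n m d g, (∀ k, c ≠ pin k) → 2 ≤ (wb n m d g).count c) ∧
  (∀ k ≤ 2 * m + 2, pin k ∈ wb n m d g) ∧
  (∀ c ∈ wb n m d g, c = 0 ∨ c = 1 ∨ (∃ k ≤ 2 * m + 1, c = con k) ∨ ∃ k ≤ 2 * m + 2, c = pin k)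

/-- BLK (easy-medium, uses TWC).  The image of the first block.  Twin of MWLE.BLK. -/
def BlkStmt : Prop := ∀ n : ℕ, 1 ≤ n → ∀ (σ τ : List ℕ) (m : ℕ), Sg σ τ m →
  ∀ (d g : Bool) (f : ℕ → List ℕ) (p q W : List ℕ),
  W = p ++ ((wd n σ m d g).flatMap f ++ q) → Fc σ m W →
    (∀ c ∈ wb n m d g, ∀ k ≤ 2 * m + 2, sep k ∉ f c) ∧
    (∀ c, c ∉ p → 1 ≤ nn W c (t1 σ) → ∀ k ≤ 2 * m + 2,
      (p ++ (wb n m d g).flatMap f).count (pin k) ≤ 1 ∧
      (∀ a ∈ wb n m d g, (∀ j, a ≠ pin j) → pin k ∉ f a))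

/-- TCR (medium, uses TWC, BLK).  **Crossing of the tails.**  Twin of MWLE.TCR. -/
def TcrStmt : Prop := ∀ n : ℕ, 1 ≤ n → ∀ (σ τ : List ℕ) (m : ℕ), Sg σ τ m →
  ∀ (d g : Bool) (f : ℕ → List ℕ) (p q W : List ℕ),
  W = p ++ ((wd n σ m d g).flatMap f ++ q) → Fc σ m W →
    ∀ j j' k k', j ≤ 2 * m + 2 → j' ≤ 2 * m + 2 → k ≤ 2 * m + 2 → k' ≤ 2 * m + 2 →
      (j = j' ∨ j ∈ pre σ j') → k ∈ pre σ k' → pin k' ∈ f (pin j) → pin k ∉ f (pin j')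

/-- YPR (medium, uses TWC, BLK).  A letter which occurs only in front of `t1 σ` is in no image of a
pin which contains a pin.  Twin of MWLE.YPR. -/
def YprStmt : Prop := ∀ n : ℕ, 1 ≤ n → ∀ (σ τ : List ℕ) (m : ℕ), Sg σ τ m →
  ∀ (d g : Bool) (f : ℕ → List ℕ) (p q W : List ℕ),
  W = p ++ ((wd n σ m d g).flatMap f ++ q) → Fc σ m W →
    ∀ c, nn W c (t1 σ) = W.count c → ∀ j k, j ≤ 2 * m + 2 → k ≤ 2 * m + 2 →
      pin k ∈ f (pin j) → c ∉ f (pin j)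

/-- GFA (easy-medium).  The image of the first part in the form `gh`.  Twin of MWLE.GFA. -/
def GfaStmt : Prop := ∀ (n m : ℕ) (f : ℕ → List ℕ) (h : ℕ → List ℕ),
  h = (fun i => (if 1 ≤ i ∧ i ≤ m then pw (n + 1) (f (con i)) else []) ++
    (if i = m then f 0 ++ pw (n + 1) (f (con (m + 1))) else [])) →
  (N0 n m ++ 0 :: List.replicate (n + 1) (con (m + 1))).flatMap f =
    f 1 ++ (pw (n + 1) (f (con 0)) ++ gh (fun i => f (pin i)) h (m + 1)) ∧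
  (N0 n m ++ 0 :: (List.replicate (n + 1) (con (m + 1)) ++ [pin (m + 1)])).flatMap f =
    f 1 ++ (pw (n + 1) (f (con 0)) ++ gh (fun i => f (pin i)) h (m + 2))

/-- GFB (easy-medium).  The image of the second part in the form `gh`.  Twin of MWLE.GFB. -/
def GfbStmt : Prop := ∀ (n m : ℕ) (g : Bool) (f : ℕ → List ℕ),
  (Nx n m g).flatMap f = pw (n + 1) (f (con (m + 1))) ++ ((if g then pw n (f 1) else []) ++
    gh (fun i => f (pin (m + 1 + i))) (fun i => if i = 0 then f 1 else if i ≤ m then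
      pw (n + 1) (f (con (m + 1 + i))) else []) (m + 2))

/-- CVA (medium, uses TWC, BLK, TCR, GFA, `MWGN.cov`, `MWGN.pig`).  **Covering by the first copy.**
Twin of MWLE.CVA. -/
def CvaStmt : Prop := ∀ n : ℕ, 1 ≤ n → ∀ (σ τ : List ℕ) (m : ℕ), Sg σ τ m →
  ∀ (g : Bool) (f : ℕ → List ℕ) (p q W : List ℕ),
  W = p ++ ((wd n σ m false g).flatMap f ++ q) → Fc σ m W →
    (∀ k ≤ 2 * m + 2, (p ++ (wb n m false g).flatMap f).count (pin k) ≤ 1) →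
    (∀ a ∈ wb n m false g, (∀ j, a ≠ pin j) → ∀ k ≤ 2 * m + 2, pin k ∉ f a) →
    (∀ k, m + 1 ≤ k → k ≤ 2 * m + 2 → pin k ∉ p) →
    (∀ k, m + 1 ≤ k → k ≤ 2 * m + 2 → pin k ∈ (N0 n m ++ 0 ::
      (List.replicate (n + 1) (con (m + 1)) ++ (if g then [] else [pin (m + 1)]))).flatMap f) →
        g = false ∧ pin (m + 1) ∈ f (pin 0) ∧ pin (m + 2) ∈ f (pin 1)

/-- CVB (medium, uses TWC, BLK, TCR, GFB, `MWGN.cov`).  **Covering by the second copy.**  Twin of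
MWLE.CVB. -/
def CvbStmt : Prop := ∀ n : ℕ, 1 ≤ n → ∀ (σ τ : List ℕ) (m : ℕ), Sg σ τ m →
  ∀ (d g : Bool) (f : ℕ → List ℕ) (p q W : List ℕ),
  W = p ++ ((wd n σ m d g).flatMap f ++ q) → Fc σ m W →
    (∀ k ≤ 2 * m + 2, (p ++ (wb n m d g).flatMap f).count (pin k) ≤ 1) →
    (∀ a ∈ wb n m d g, (∀ j, a ≠ pin j) → ∀ k ≤ 2 * m + 2, pin k ∉ f a) →
    ∀ a ≤ m + 1, (∀ i < m + 2, pin (a + i) ∉ p ++ (N0 n m).flatMap f) →
      (∀ i < m + 2, pin (a + i) ∈ (Nx n m g).flatMap f) →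
        ∀ i < m + 2, pin (a + i) ∈ f (pin (m + 1 + i))

/-- GDB (medium, uses TWC, BLK, CVA, TCR).  **Class b, the insertion of `y^n`.**  Twin of MWLE.GDB:
with `Γ` the image in the last assumption of CVA, `W = p ++ (Γ ++ (f 1 ++ rest))`: `g = false`:
`.. pin (m+1), 1 ..`; `g = true`: `.. con (m+1), 1 ..` (`1^n`, `n ≥ 1`). -/
def GdbStmt : Prop := ∀ n : ℕ, 1 ≤ n → ∀ (σ τ : List ℕ) (m : ℕ), Sg σ τ m →
  ∀ (g : Bool) (f : ℕ → List ℕ) (p q : List ℕ),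
  Fb σ m (p ++ ((wd n σ m false g).flatMap f ++ q)) → ∀ c ∈ f 1, c % 5 = 4 ∨ c = 1 ∨ c ∈ p

/-- GDC (medium, uses TWC, BLK, CVB, TCR).  **Class c, the power of `x`.**  Twin of MWLE.GDC
(`d = true`: `W = P ++ (f 0 ++ (f 0 ++ ..))`, `n + 1 ≥ 2`). -/
def GdcStmt : Prop := ∀ n : ℕ, 1 ≤ n → ∀ (σ τ : List ℕ) (m : ℕ), Sg σ τ m →
  ∀ (d g : Bool) (f : ℕ → List ℕ) (p q : List ℕ),
  Fy σ m (p ++ ((wd n σ m d g).flatMap f ++ q)) →
    ∀ c ∈ f 0, c % 5 = 4 ∨ c = 0 ∨ c ∈ p ++ (N0 n m).flatMap f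

/-- GDA (medium, uses TWC, BLK, CVB, YPR).  **Both classes, the power of `x` with `y^n` in front of
`z`.**  Twin of MWLE.GDA: `Z = P ++ f 0 ++ pw (n+1) (f (con (m+1))) ++ pw n (f 1)`, which contains `f 1` at
least twice (in `N0` and at the end, `n ≥ 1`). -/
def GdaStmt : Prop := ∀ n : ℕ, 1 ≤ n → ∀ (σ τ : List ℕ) (m : ℕ), Sg σ τ m →
  ∀ (d : Bool) (f : ℕ → List ℕ) (p q : List ℕ),
  Fb σ m (p ++ ((wd n σ m d true).flatMap f ++ q)) →
    Fy σ m (p ++ ((wd n σ m d true).flatMap f ++ q)) →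
      ∀ c ∈ f 0, c % 5 = 4 ∨ c = 1 ∨ c ∈ p ++ (N0 n m).flatMap f

/-- CLB (medium-hard, uses MWGQ.PWX, MWLE.TFW, DDC, MWGQ.FSP).  **The insertion of `y^n` is an
identity in class b.**
Proof.  Twin of MWLE.CLB.  `F a = (f a).flatMap (psi n 1)`, `F 1 = X`, `P = p.flatMap (psi n 1)`,
`b = con (m+1)`, `E = pw (2n) X`.  The image of the instance of `w1` is `P X F(con 0)^(n+1) F(pin 0)
[F(pin i) F(con i)^(n+1)]_(1 ≤ i ≤ m) F(0) F(b)^(n+1) F(pin (m+1)) X B T`, `B` = image of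
`cp n (m+2) m ++ [pin (2m+2)]`, `T = F 0 ++ (tl σ).flatMap F ++ ..`, for `w2` there is `X^n` in front of
`F(pin (m+1))`.  (i) `P X ~ P X^(2n+1)`: `P X ~ P (dn X)` letter by letter (each letter of `X` is a
content with the exponent `n + 1`, or it is in `P`, as in row VVD), `dn X ~ (dn X)^(n+1) ~
(dn X)^(2n+1)` (DDC (2), PWX (1)), back.  So `P X R ~ P X E R` and everywhere behind this `X ~ E X`,
`X^n ~ E` (PWX (2)).  (ii) `E` commutes with `F(con 0)^(n+1)` (PWX (3)).  (iii) `r = m + 2`,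
`L i = F (pin i)` (`i ≤ m`), `L (m+1) = F 0`, `L (m+2) = F (pin (m+1))`, `C 0 = []`, `C i = F (con i)`
(`1 ≤ i ≤ m`), `C (m+1) = F b`: the word is `~ P X F(con 0)^(n+1) (ws n X (X ++ B) S L C (fun _ => false) τ' r) R`
with `τ'`, `S`, `R` from TFW.  By FSP and `FBs` it is `~` the same with `s i = decide (i = m + 1)`: `E`
behind `F(b)^(n+1)`, in front of `F(pin (m+1))`, `E ~ X^n`.  (iv) back. -/
def ClbStmt : Prop := ∀ (n : ℕ) (β : FIC), Gn n β → FBs n β → ∀ (σ τ : List ℕ) (m : ℕ),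
  Sg σ τ m → ∀ (f : ℕ → List ℕ) (p q : List ℕ), (∀ c ∈ f 1, c % 5 = 4 ∨ c = 1 ∨ c ∈ p) →
    RR β ((p ++ ((wd n σ m false false).flatMap f ++ q)).flatMap (psi n 1))
      ((p ++ ((wd n σ m false true).flatMap f ++ q)).flatMap (psi n 1))

/-- CLC (easy-medium, uses KFB, GDB, GDC, GDA, CLB, VVD, FSF).  **The closure properties.**  Twin of
MWLE.CLC (`(List.replicate (n+1) 0).flatMap f = pw (n+1) (f 0)`). -/
def ClcStmt : Prop := ∀ (n : ℕ) (β : FIC), Gn n β → ¬ E0 n β → FBs n β →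
  ∀ (σ τ : List ℕ) (m : ℕ), Tau τ m → Sg σ τ m → BtS n β m → ¬ LE n β τ m →
  ∀ (f : ℕ → List ℕ) (p q : List ℕ),
    (KK n β σ m 1 (p ++ ((wd n σ m false false).flatMap f ++ q)) ↔
      KK n β σ m 1 (p ++ ((wd n σ m false true).flatMap f ++ q))) ∧
    (∀ g : Bool, KK n β σ m 0 (p ++ ((wd n σ m false g).flatMap f ++ q)) ↔
      KK n β σ m 0 (p ++ ((wd n σ m true g).flatMap f ++ q))) ∧
    ((KK n β σ m 1 (p ++ ((wd n σ m false true).flatMap f ++ q)) ∧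
        KK n β σ m 0 (p ++ ((wd n σ m false true).flatMap f ++ q))) ↔
      (KK n β σ m 1 (p ++ ((wd n σ m true true).flatMap f ++ q)) ∧
        KK n β σ m 0 (p ++ ((wd n σ m true true).flatMap f ++ q))))

/-- PEN (medium, uses CLC, MWLE.SIG, CPX, LER, MWGQ.PWX).  **Light end pentagon.**  Twin of
MWLE.PEN: `RR S w4 w3` by `RR.sub` with `0 ↦ 0^(n+1)`: the image of `w1` is
`N0 0^(n+1) Nx 0^(n+1) tl ~ N0 0^(n+1) Nx 0 tl = w4` (PWX (2) in `β ≤ S`). -/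
def PenStmt : Prop := ∀ (n : ℕ) (β : FIC), ModF β → Gn n β → ¬ E0 n β → FBs n β →
  ∀ (m : ℕ) (τ : List ℕ), Tau τ m → BtS n β m → LE n β τ m

/-- ALE (easy, uses PEN, BTS).  Strong induction on `m`. -/
def AleStmt : Prop := ∀ (n : ℕ) (β : FIC), ModF β → Gn n β → ¬ E0 n β → FBs n β →
  ∀ (m : ℕ) (τ : List ℕ), Tau τ m → LE n β τ m

/-- AIO (medium, uses BTS, MWGQ.PWX).  **All light end identities give `I1`.**  Twin of MWLE.AIO. -/
def AioStmt : Prop := ∀ (n : ℕ) (β : FIC), Gn n β →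
  (∀ (m : ℕ) (τ : List ℕ), Tau τ m → LE n β τ m) → MWZ.I1 n (RR β)

/-- LEF (easy, uses ALE, AIO, MWGQ.PEF, MWGQ.FFR, MWGQ.ITA).  **Light ends of the gamma world.**
Proof.  `FBs` is PEF.  ALE and AIO give `I1`; FFR gives `FFW`; ITA. -/
def LefStmt : Prop := ∀ (n : ℕ) (β : FIC), ModF β → Gn n β → ¬ E0 n β →
  MWZ.I1 n (RR β) ∧ MWGQ.It n (RR β)

/-- ITD (easy-medium, uses MWGQ.PWX).  From the exact period `d` to `n`.
Proof.  `Z (d+1) ~ Z (n+1)` (PWX (1) for `d`; `n ≡ 0 ≡ d` mod `d`), so `I1 d` gives `I1 n`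
(`RR.sub (0 ↦ x)`).  `It`: insert `x^d` `n / d` times (`w` becomes `w ++ x^(j d)`; `x` occurs in the word at
least twice).  `E0 d → E0 n`: `x^2y ~ x^2yx^d`, PWX (2): `~ x^2yx^n`. -/
def ItdStmt : Prop := ∀ (n d : ℕ) (β : FIC), 1 ≤ n → 1 ≤ d → d ∣ n → Gn d β →
  (MWZ.I1 d (RR β) → MWZ.I1 n (RR β)) ∧ (MWGQ.It d (RR β) → MWGQ.It n (RR β)) ∧
    (E0 d β → E0 n β)

/-- I2R (medium, uses MWGP.GAP).  **`I2` from the crossing of one residue.**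
`RC`: `x^3yxty ≈ x^2yx^2ty`.
Proof.  `p x c x d x q`: move the middle `x` to the left through `c`, one letter `y` at a time
(`c = c' y`, induction on `c`, with `y :: d` in place of `d`).  The word is `p x c' y x d x q`.  If `y = x`
nothing is to do.  If `y ∈ p ++ x :: c'`: `y` and `x` are not first occurrences and commute (GAP).
Otherwise `y` occurs again behind (`Mul`; `y ≠ x`), in `d` or in `q`: `It` inserts `x^n` in front of `y`
(and `x^n ~ x^(2n)`, `gm`), `x^(2n) y x t y ~ x^(2n) y x^(n+1) t y` (`gm`) `~ x^(2n+1) y x^n t y` (`RC` with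
`x^i` in front and `t ↦ x^j t`: `x^(a+1) y x^b t y ~ x^a y x^(b+1) t y` for all `a ≥ 2`, `b ≥ 1`; here
`a = 2n`, `b = n`); remove both `x^n` with `It`: `p x c' x y d x q`. -/
def I2rStmt : Prop := ∀ (n : ℕ) (β : FIC), 1 ≤ n → MWZ.Per n (RR β) → MWZ.Ga n (RR β) →
  MWGP.Rn n (RR β) → MWGQ.It n (RR β) →
    RR β [0, 0, 0, 1, 0, 2, 1] [0, 0, 1, 0, 0, 2, 1] → MWZ.I2 (RR β)

/-- NMN (easy-medium, uses MWGQ.GND, LEF, ITD, MWGQ.DPE, MWGQ.CMW).  **Necessity in the gamma world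
outside `x^2y ≈ x^2yx^n`, all periods.**
Proof.  GND (the exact period `d`, `Gn d β`; `d ∣ n` by `en` from `Z 2 ~ Z (n+2)`); `¬ E0 d` by ITD; LEF
for `d`; ITD.  `F`: CMW for `d` with DPE. -/
def NmnStmt : Prop := ∀ (n : ℕ) (β : FIC), ModF β → 1 ≤ n → RR β [0, 0] (Z (n + 2)) →
  (∀ k : ℕ, 1 ≤ k → ¬ β.r (lx ^ (k + 1)) lx) → RR β [0, 1, 0] (0 :: 1 :: Z (n + 1)) →
  ¬ RR β [0, 1, 0] (Z (n + 1) ++ 1 :: Z (n + 1)) →
  RR β (Z (n + 1) ++ List.replicate (n + 1) 1) (List.replicate (n + 1) 1 ++ Z (n + 1)) →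
  RR β [0, 1, 2, 0, 1] [1, 0, 2, 0, 1] → ¬ E0 n β →
    MVO.Sys.F (RR β) ∧ MWZ.I1 n (RR β) ∧ MWGQ.It n (RR β)

end Pool.Agent.MWLQ
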