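import Pool.Agent.MWLE.StmtsB
import Pool.Agent.MWGQ.StmtsC

/-!
# MWLQ: the light end pentagon for period `n` (definitions)

MP_23468a_al, world `Gn n`: `xyx ≈ xyx^(n+1)`, `x^(n+1)y^(n+1) ≈ y^(n+1)x^(n+1)`, `xytxy ≈ yxtxy`,
outside `x^2y ≈ x^2yx^n`.  Letters: `x = 0`, `y = 1`, light letters `pin k`, simple letters `sep k`,
contents `con k` (the numbers `c` with `c % 5 = 4`).  `pin`, `sep`, `con`, `tl`, `tll`, `Sg`, `t1`, `Fc`,
`Fb`, `Fy`, `Fx`, `Fu`, `Fz`, `rz`, `sf`, `sg`, `k0` are those of MWLE.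
-/

namespace Pool.Agent.MWLQ

open Pool.Agent.Helper14_MV
open Pool.Agent.Helper2_MV (RR)
open Pool.Agent.MWK (pre)
open Pool.Agent.MWGN (nn Tau gh)
open Pool.Agent.MWGQ (pw Z Gn E0 A0 P0)
open Pool.Agent.MWLE (pin sep con tl tll Sg t1 Fc Fb Fy Fx Fu Fz rz sf k0)

/-! ### the identities -/

/-- `C_0^(n+1) L_0 C_1^(n+1) L_1 .. C_(k-1)^(n+1) L_(k-1)` -/
def lw (n : ℕ) (L C : ℕ → List ℕ) (k : ℕ) : List ℕ :=
  (List.range k).flatMap (fun i => pw (n + 1) (C i) ++ L i)

/-- the light end identity `X W X T ≈ X^(n+1) W X T` with `m + 1` lights, tails in the order `τ` -/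
def LE (n : ℕ) (β : FIC) (τ : List ℕ) (m : ℕ) : Prop := ∀ (X : List ℕ) (S L C : ℕ → List ℕ),
  RR β (X ++ (lw n L C (m + 1) ++ (X ++ τ.flatMap (fun i => S i ++ L i))))
    (pw (n + 1) X ++ (lw n L C (m + 1) ++ (X ++ τ.flatMap (fun i => S i ++ L i))))

/-- the hull identities of MWGQ (part C, row PEF) for all orders -/
def FBs (n : ℕ) (β : FIC) : Prop := ∀ (r : ℕ) (τ : List ℕ), Tau τ r → MWGQ.FB n β τ r

/-- every letter with the exponent `n + 1` -/
def dn (n : ℕ) (u : List ℕ) : List ℕ := u.flatMap (fun c => List.replicate (n + 1) c)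

/-- the letters with `Q` once, the other ones with the exponent `n + 1` -/
def dq (n : ℕ) (Q : ℕ → Bool) (v : List ℕ) : List ℕ :=
  v.flatMap (fun c => if Q c then [c] else List.replicate (n + 1) c)

/-- special form: at most `N` lights, all other letters with the exponent `n + 1` -/
def BtS (n : ℕ) (β : FIC) (N : ℕ) : Prop := ∀ (Q : ℕ → Bool) (p v q : List ℕ) (x : ℕ),
  (v.filter Q).length ≤ N → (v.filter Q).Nodup → (∀ c ∈ v, Q c = true → c ∈ q) →
    RR β (p ++ x :: (dq n Q v ++ x :: q)) (p ++ (List.replicate (n + 1) x ++ (dq n Q v ++ x :: q)))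

/-- fill in the special form: `p c^(n+1) v v' c q ≈ p c^(n+1) v c^n v' c q` -/
def FS (n : ℕ) (β : FIC) : Prop := ∀ (Q : ℕ → Bool) (p v v' q : List ℕ) (c : ℕ),
  ((v ++ v').filter Q).Nodup → (∀ e ∈ v ++ v', Q e = true → e ∈ q) →
    RR β (p ++ (List.replicate (n + 1) c ++ (dq n Q v ++ (dq n Q v' ++ c :: q))))
      (p ++ (List.replicate (n + 1) c ++ (dq n Q v ++ (List.replicate n c ++ (dq n Q v' ++ c :: q)))))

/-- the crossing of the residue `g`: `x^(2n+g) z x^n s z ≈ x^(2n) z x^(n+g) s z`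
(`x = 0`, `z = 1`, `s = 2`) -/
def Dq (n g : ℕ) (β : FIC) : Prop :=
  RR β (Z (2 * n + g) ++ 1 :: (Z n ++ [2, 1])) (Z (2 * n) ++ 1 :: (Z (n + g) ++ [2, 1]))

/-- `C_0^N L_0 C_1^N L_1 .. C_(k-1)^N L_(k-1)` with letters, `N = (n+1)^2` -/
def lw4 (n : ℕ) (L C : ℕ → ℕ) (k : ℕ) : List ℕ :=
  (List.range k).flatMap (fun i => List.replicate ((n + 1) * (n + 1)) (C i) ++ [L i])

/-! ### the words -/

/-- `pin, content^(n+1)` with the numbers `s, .., s + k - 1` -/
def cp (n s k : ℕ) : List ℕ :=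
  (List.range k).flatMap (fun i => pin (s + i) :: List.replicate (n + 1) (con (s + i)))

/-- the part in front of the first `x` -/
def N0 (n m : ℕ) : List ℕ := 1 :: (List.replicate (n + 1) (con 0) ++ pin 0 :: cp n 1 m)

/-- the part between the first two `x` -/
def Nx (n m : ℕ) (g : Bool) : List ℕ := List.replicate (n + 1) (con (m + 1)) ++
  ((if g then List.replicate n 1 else []) ++
    (pin (m + 1) :: 1 :: (cp n (m + 2) m ++ [pin (2 * m + 2)])))

/-- the first block: `d`: the first `x` becomes `x^(n+1)`, `g`: additional `y^n` in front of `z` -/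
def wb (n m : ℕ) (d g : Bool) : List ℕ :=
  N0 n m ++ ((if d then List.replicate (n + 1) 0 else [0]) ++ (Nx n m g ++ [0]))

/-- the four words: `w1 = wd n σ m false false`, `w2 = wd n σ m false true`,
`w3 = wd n σ m true true`, `w4 = wd n σ m true false` -/
def wd (n : ℕ) (σ : List ℕ) (m : ℕ) (d g : Bool) : List ℕ := wb n m d g ++ tl σ

/-- delete the letter `e`, contents get the exponent `n + 1` -/
def psi (n e c : ℕ) : List ℕ :=
  if c = e then [] else if c % 5 = 4 then List.replicate (n + 1) c else [c]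

/-- equivalent to `w1` after deleting the letter `e` (`e = 1`: class `b`, `e = 0`: class `c`) -/
def KK (n : ℕ) (β : FIC) (σ : List ℕ) (m e : ℕ) (W : List ℕ) : Prop :=
  RR β (W.flatMap (psi n e)) ((wd n σ m false false).flatMap (psi n e))

end Pool.Agent.MWLQ
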