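import Pool.Agent.MWLQ.Defs

/-!
# MWLQ, part A: tools and rigidity (rows)

MP_23468a_al, light ends of the world `xyx ≈ xyx^(n+1)`, all periods.  Every row is the twin of the
(proved) row of MWLE with the same name: copy the file (table mwle, column path) and adapt it; for
`n = 1` nothing changes.  Every row is self contained, its complete proof is in the docstring.
Tools: `RR.append`, `RR.sub`, `RR.filter`, `RR.symm`, `RR.refl`, `β.trans`; the lemmas on `pre` in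
MWK/Defs.lean; `nn w c q = (pre w q).count c`; proved rows of MWGQ (table mwgq): PWX (powers:
(1) `X^a ~ X^b` for `a, b ≥ 2`, `a ≡ b`; (2) `X u X^a ~ X u X^b` for `a, b ≥ 1`, `a ≡ b`; (3) `X^a C^b ~ C^b X^a`
for `a, b ≥ 2`), CNT (counts: 0, 1, `≥ 2`, residues), OLR, TLR, TLW, FSP; of MWGN: SRT; of MWLE: TEX, SPZ,
SIG, TFW (unchanged).  The old (5) becomes: MWLE.POW ~ PWX, MWF.SIM and MWF.CTT ~ CNT.
-/

namespace Pool.Agent.MWLQ

open Pool.Agent.Helper14_MV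
open Pool.Agent.Helper2_MV (RR)
open Pool.Agent.MWK (pre)
open Pool.Agent.MWGN (nn Tau gh)
open Pool.Agent.MWGQ (pw Z Gn E0 A0 P0)
open Pool.Agent.MWLE (pin sep con tl tll Sg t1 Fc Fb Fy Fx Fu Fz rz sf k0)

/-- DDC (easy-medium, uses MWGQ.PWX).  Powers.
Proof.  (1) Induction on `u`: `c^(n+1)` commutes with `X^a` (PWX (3) with `X ↦ [c]`).  (2) Induction on
`u`: `(c^(n+1) (dn u))^(n+1) ~ c^((n+1)(n+1)) (dn u)^(n+1)` (part (1) with `X = [c]`) `~ c^(n+1) dn u`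
(PWX (1), induction).  (3) Induction on `u`, `u = c :: u'`: `A c B ~ A c^(n+1) B` because `c ∈ A` (PWX (2)),
then the induction assumption with `A ++ replicate (n+1) c`.  (4) Induction on the permutation,
`c^(n+1) d^(n+1) ~ d^(n+1) c^(n+1)`. -/
def DdcStmt : Prop := ∀ (n : ℕ) (β : FIC), Gn n β → ∀ (u X A B : List ℕ),
  (∀ a, 2 ≤ a → RR β (A ++ (dn n u ++ (pw a X ++ B))) (A ++ (pw a X ++ (dn n u ++ B)))) ∧
  RR β (A ++ (dn n u ++ B)) (A ++ (pw (n + 1) (dn n u) ++ B)) ∧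
  ((∀ c ∈ u, c ∈ A) → RR β (A ++ (u ++ B)) (A ++ (dn n u ++ B))) ∧
  (∀ u' : List ℕ, u.Perm u' → RR β (A ++ (dn n u ++ B)) (A ++ (dn n u' ++ B)))

/-- FSF (medium-hard, uses MWGQ.PWX, MWGQ.FSP, MWLE.TEX, DDC).  **Fill in the special form.**
Proof.  First: for all `τ, r` (`Tau`), all `s` and all words `ws n X B S L C (fun _ => false) τ r ~
ws n X B S L C s τ r`: if `s i = true` for some `i < r` by FSP both are `~ ws .. (fun _ => true)` (FBs);
otherwise they are equal.  Let `z_0, .., z_(k-1)` be the letters of `(v ++ v').filter Q`,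
`v ++ v' = D_0 z_0 D_1 .. z_(k-1) D_k`, `E = c^(2n)`.  `p c^(n+1) ~ p c^(n+1) E` (PWX (1)); behind an
occurrence of `c`: `c^n ~ E`, `c ~ E c` (PWX (2)); `E` commutes with `dn D` (DDC (1)): so an inserted
`c^n` may be moved through `dn D` (not through `z_i`).  `k = 0`: `c^(n+1) (dn v) (dn v') c ~
c^(n+1) E (dn v) (dn v') c ~ c^(n+1) (dn v) E (dn v') c`.  `k ≥ 1`, `r = k - 1`: TEX:
`c :: q = τ.flatMap (S i ++ [z_i]) ++ R` (`z_i ∈ q`).  The word is `~ p c^(n+1) (dn D_0) E z_0 (dn D_1) z_1 ..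
z_(k-1) E (dn D_k) c q = p c^(n+1) (dn D_0) (ws n [c] (dn D_k) S [z_i] (dn D_(i+1)) (fun _ => false) τ r) R`
up to `dn D ~ (dn D)^(n+1)` (DDC (2)).  The place of the insertion is in `D_0` (then it is trivial: `E`
commutes), in `D_k` (trivial: `dn D_k c ~ dn D_k E c`, move `E`), or in `D_(j+1)`, `j < r` : apply the first
remark with `s i = decide (i = j)`, this inserts `E` behind `dn D_(j+1)`, move it to its place,
`E ~ c^n`. -/
def FsfStmt : Prop := ∀ (n : ℕ) (β : FIC), Gn n β → FBs n β → FS n β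

/-- VVD (easy-medium, uses MWGQ.PWX, DDC).  Powers of an image.
Proof.  `ψ = psi n e`.  `v' = v.flatMap ψ`, `A' = A.flatMap ψ`.  `P v' ~ P (dn v')` for every `P` which
contains the letters of `A'`: letter by letter (induction on `v`, with a longer `A`): for `c = e`
nothing; for a content `c` the image is `c^(n+1)` and `c^(n+1) ~ c^((n+1)(n+1))` (PWX (1)); otherwise
`c ∈ A`, so `c ∈ A'` and `c ~ c^(n+1)` (PWX (2)).  So `A' v'^k ~ A' (dn v')^k` for all `k` and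
`A' v' ~ A' (dn v') ~ A' (dn v')^(n+1) ~ A' v'^(n+1)` (DDC (2)). -/
def VvdStmt : Prop := ∀ (n : ℕ) (β : FIC), Gn n β → ∀ (e : ℕ) (A v B : List ℕ),
  (∀ c ∈ v, c % 5 = 4 ∨ c = e ∨ c ∈ A) →
    RR β ((A ++ (v ++ B)).flatMap (psi n e)) ((A ++ (pw (n + 1) v ++ B)).flatMap (psi n e))

/-- PST (easy-medium).  Counting in the image under `psi n e` (`e` is 0 or 1).
Proof.  Inductions on `W`; `psi n e` maps a letter `q` which is not a content and not `e` to `[q]`, and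
`q` is in no other image. -/
def PstStmt : Prop := ∀ (n e : ℕ) (W : List ℕ), e ≤ 1 →
  (∀ c, c ≠ e → c % 5 ≠ 4 → (W.flatMap (psi n e)).count c = W.count c) ∧
  (∀ c, c % 5 = 4 → (W.flatMap (psi n e)).count c = (n + 1) * W.count c) ∧
  (∀ q, q ≠ e → q % 5 ≠ 4 → pre (W.flatMap (psi n e)) q = (pre W q).flatMap (psi n e)) ∧
  (∀ c q, c ≠ e → q ≠ e → c % 5 ≠ 4 → q % 5 ≠ 4 → nn (W.flatMap (psi n e)) c q = nn W c q) ∧
  (∀ c q, q ≠ e → c % 5 = 4 → q % 5 ≠ 4 →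
    nn (W.flatMap (psi n e)) c q = (n + 1) * nn W c q) ∧
  (∀ F : ℕ → Bool, (W.flatMap (psi n e)).filter F = (W.filter F).flatMap (psi n e))

/-- PRC (medium).  The first parts of the word `w1`.
Proof.  Direct: `MWK.pre_append`, `MWK.pre_append_mem`, `MWK.pre_cons_self`; `pin`, `sep`, `con` are
injective with different images.  In `cp n s m` (`i < m`): `pre (cp n s m ++ R) (pin (s + i)) = cp n s i`
(induction on `m` with `List.range_succ`).  `wb` contains no `sep`; `pre (tl σ) (sep k) = tl (pre σ k)`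
for `k ∈ σ` (induction on `σ`). -/
def PrcStmt : Prop := ∀ (n : ℕ) (σ : List ℕ) (m : ℕ),
  pre (wd n σ m false false) (pin 0) = 1 :: List.replicate (n + 1) (con 0) ∧
  (∀ i < m, pre (wd n σ m false false) (pin (1 + i)) =
    1 :: (List.replicate (n + 1) (con 0) ++ pin 0 :: cp n 1 i)) ∧
  pre (wd n σ m false false) (pin (m + 1)) =
    N0 n m ++ 0 :: List.replicate (n + 1) (con (m + 1)) ∧
  (∀ i ≤ m, pre (wd n σ m false false) (pin (m + 2 + i)) =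
    N0 n m ++ (0 :: (List.replicate (n + 1) (con (m + 1)) ++
      pin (m + 1) :: 1 :: cp n (m + 2) i))) ∧
  (σ ≠ [] → pre (wd n σ m false false) (t1 σ) = wb n m false false) ∧
  (∀ k ∈ σ, pre (wd n σ m false false) (sep k) = wb n m false false ++ tl (pre σ k))

/-- WFC (medium, uses PRC).  The common facts for `w1`.  Twin of MWLE.WFC. -/
def WfcStmt : Prop := ∀ (n : ℕ) (σ τ : List ℕ) (m : ℕ), Sg σ τ m → Fc σ m (wd n σ m false false)

/-- WXY (medium, uses PRC).  The facts about `x`, `y`, contents and pins for `w1`.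
Proof.  Direct from PRC and counting (a pin occurs once in `wb` and once in `tl σ`). -/
def WxyStmt : Prop := ∀ (n : ℕ) (σ τ : List ℕ) (m : ℕ), Sg σ τ m →
  ((wd n σ m false false).count 0 = 2 ∧ nn (wd n σ m false false) 0 (t1 σ) = 2 ∧
    nn (wd n σ m false false) 0 (pin (m + 1)) = 1) ∧
  ((wd n σ m false false).count 1 = 2 ∧ nn (wd n σ m false false) 1 (t1 σ) = 2 ∧
    nn (wd n σ m false false) 1 (pin 0) = 1) ∧
  (∀ k ≤ 2 * m + 1, (wd n σ m false false).count (con k) = n + 1 ∧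
    nn (wd n σ m false false) (con k) (t1 σ) = n + 1) ∧
  (∀ k ≤ m, nn (wd n σ m false false) (con k) (pin (m + 1)) = n + 1 ∧
    nn (wd n σ m false false) (con k) (pin (m + 2)) = n + 1) ∧
  (∀ c ∈ wd n σ m false false, c % 5 = 4 → ∃ k ≤ 2 * m + 1, c = con k) ∧
  (∀ k ≤ 2 * m + 2, (wd n σ m false false).count (pin k) = 2)

/-- LEV (medium, uses MWGQ.PWX).  `P0` implies the light end identity with one more light.
Proof.  First `k0 → P0`: in `k0` substitute `0 ↦ 0^n`, `2 ↦ []`, `3 ↦ x s`, put `x t` in front: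
`x t x^n y x^(n+1) s y ~ x t y x^(2n+1) s y`; behind the first `x`: `x^(n+1) ~ x`, `x^(2n+1) ~ x` (PWX (2)),
rename.  Now let `P0` hold.  Letters `x = 0`, `L i = pin i`, `C i = con i`, `S i = sep i` (`i ≤ m`),
`T = tll S L τ`, `t = lw4 n L C m ++ replicate ((n+1)(n+1)) (C m)`, so the word is `x t L_m x T`.  `P0`
(`0 ↦ [x]`, `2 ↦ t`, `1 ↦ [L m]`, `3 ↦` the part of `T` up to the next `L m`; `m ∈ τ`):
`x t L_m x T ~ x t x^n L_m x T`.  `BtS` with `p = []`,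
`v = (range m).flatMap (replicate (n+1) (C i) ++ [L i]) ++ replicate (n+1) (C m)`, `Q c = (c % 5 = 2)`:
`dq n Q v = t` and `x t x q' ~ x^(n+1) t x q'` (`q' = x^(n-1) L_m x T`).  `P0` with `2 ↦ x^n t`:
`x^(n+1) t x^n L_m x T ~ x^(n+1) t L_m x T`. -/
def LevStmt : Prop := ∀ (n : ℕ) (β : FIC), Gn n β → ∀ (m : ℕ) (τ : List ℕ), Tau τ m →
  BtS n β m → (P0 n β ∨ k0 β) →
    RR β (0 :: (lw4 n pin con (m + 1) ++ (0 :: tll sep pin τ)))
      (List.replicate (n + 1) 0 ++ (lw4 n pin con (m + 1) ++ (0 :: tll sep pin τ)))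

/-- LER (medium, uses MWGQ.PWX).  Renaming.
Proof.  Twin of MWLE.LER: `RR.sub f` with `f x = X`, ..; the image of `lw4` is equivalent to
`lw n L' C' (m + 1)` because `C'^((n+1)(n+1)) ~ C'^(n+1)` (PWX (1)) in every context. -/
def LerStmt : Prop := ∀ (n : ℕ) (β : FIC), Gn n β → ∀ (m : ℕ) (τ : List ℕ), Tau τ m →
  ∀ (x : ℕ) (S L C : ℕ → ℕ), (x :: ((List.range (m + 1)).map S ++ ((List.range (m + 1)).map L ++
    (List.range (m + 1)).map C))).Nodup →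
      RR β (x :: (lw4 n L C (m + 1) ++ (x :: tll S L τ)))
        (List.replicate (n + 1) x ++ (lw4 n L C (m + 1) ++ (x :: tll S L τ))) → LE n β τ m

/-- ORD (medium, uses MWGQ.PWX, MWGQ.CNT, MWGQ.OLR).  Order of two light letters.
Proof.  Twin of MWLE.ORD: the filtered word of `w` is `[a, b]` or `[b, a]`, then `s a^i t b^j`,
`i, j ≥ 1`, that of `w'` is the same with `i' ≡ i`, `j' ≡ j` (CNT).  If `w`, `w'` differ: substitute
`t ↦ a^l t` with `i + l ≡ 1` and append `b^k` with `j + k ≡ 1`: PWX (2) gives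
`a b s a t b ~ b a s a t b`, rename (`RR.sub`): `k0` or its symmetric. -/
def OrdStmt : Prop := ∀ (n : ℕ) (β : FIC), Gn n β → ¬ E0 n β → ¬ k0 β → ∀ w w' : List ℕ,
  RR β w w' → ∀ a b s t : ℕ, w.count s = 1 → w.count t = 1 → s ≠ t → a ≠ b → 2 ≤ w.count a →
    2 ≤ w.count b → nn w s t = 1 → nn w a s = 1 → nn w b s = 1 → nn w b t = 1 →
      nn w a t = w.count a → (a ∈ pre w b ↔ a ∈ pre w' b)

/-- FAC (medium, uses WFC, WXY, PST, ORD, MWGQ.OLR, MWGQ.CNT).  **The common facts are kept.**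
Proof.  Twin of MWLE.FAC (CNT in place of `MWF.CTT`, `MWF.SIM`; `psi n e c` is empty, `c` or
`c^(n+1)`).  New: the residue of the number of pins (CNT, PST, WXY). -/
def FacStmt : Prop := ∀ (n : ℕ) (β : FIC), Gn n β → ¬ E0 n β → ¬ k0 β →
  ∀ (σ τ : List ℕ) (m e : ℕ), e ≤ 1 → Sg σ τ m → ∀ W : List ℕ, KK n β σ m e W →
    Fc σ m W ∧ (∀ c ∈ W, c % 5 = 4 → (∃ k ≤ 2 * m + 1, c = con k) ∧ nn W c (t1 σ) = W.count c) ∧
      (∀ k ≤ 2 * m + 2, W.count (pin k) ≡ 2 [MOD n])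

/-- TLD (easy-medium, uses MWGQ.PWX, MWGQ.CNT, MWGQ.TLW).  **New: the crossing of residues.**
Write `(i, j)` for `0^i 1 0^j 2 1`.
Proof.  `b' = 0`: both sides of `Dq n 0` are equal.  Let `b' ≥ 1`.  TLW (1): `A0 n β`.  CNT: `a ≡ a' + b'`,
`k ≡ k'`; append `1^l`, `k + l ≡ 1`, `l ≥ 1`: both tails become `1` (PWX (2), there is a `1` in front).  `A0`
with `0^(a-2)` in front: the left side is `~ (a, n)`.  Put `0^j` in front, `j ≥ 2`, `a + j ≡ b'`:
`(a + j, n) ~ (a' + j, b')`; `a + j ≡ 2n + b'`, `a' + j ≡ 2n` (both sides `≥ 2`, PWX (1)), `b' ≡ n + b'`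
(PWX (2)): this is `Dq n b'`. -/
def TldStmt : Prop := ∀ (n : ℕ) (β : FIC), Gn n β → ∀ a k a' b' k' : ℕ, 2 ≤ a → 1 ≤ k →
  1 ≤ k' → RR β (Z a ++ 1 :: 2 :: List.replicate k 1)
    (Z a' ++ 1 :: (Z b' ++ 2 :: List.replicate k' 1)) → Dq n b' β

/-- TLQ (medium, uses TLD, MWGQ.OLR, MWGQ.CNT).  **New: the crossing of residues in words.**
Proof.  As the first part of MWGQ.TLR (copy the file, table mwgq): `c, z, s` are different (counts).
`RR.filter (· ∈ {c, z, s})`, rename `c ↦ 0`, `z ↦ 1`, `s ↦ 2`: `w` becomes `0^a 1 2 1^k`, `a ≥ 2`, `k ≥ 1`; for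
`w'` the same facts `nn w' z s = 1`, `nn w' c s = w'.count c` hold (OLR, CNT), so `w'` becomes
`0^a' 1 0^b' 2 1^k'` with `a' = nn w' c z`, `b' = w'.count c - nn w' c z`.  TLD. -/
def TlqStmt : Prop := ∀ (n : ℕ) (β : FIC), Gn n β → ¬ E0 n β → ∀ w w' : List ℕ, RR β w w' →
  ∀ c z s : ℕ, w.count s = 1 → 2 ≤ w.count c → 2 ≤ w.count z → nn w z s = 1 →
    nn w c s = w.count c → nn w c z = w.count c → Dq n (w'.count c - nn w' c z) β

/-- DQS (easy-medium, uses MWGQ.PWX).  **New: the residues which cross form a group.**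
Write `(i, j)` for `0^i 1 0^j 2 1`.
Proof.  `Dq n g` is equivalent to: `(a + g, b) ~ (a, b + g)` for all `a ≥ 2`, `b ≥ 1` (put `0^i` in front,
`2n + i ≡ a`, and substitute `2 ↦ 0^j 2`, `n + j ≡ b`, then PWX (1), (2)).  (1) `(a + g + h, b) ~
(a + h, b + g) ~ (a, b + g + h)`.  (2) For `b ≥ 1`: `(a + d, b + g) ~ (a + d + g, b) ~ (a, b + h)` (the last
step: `d + g ≡ h`, `Dq h`) `= (a, b + g + d)` up to PWX (2); choose `b` with `b + g ≡ n`. -/
def DqsStmt : Prop := ∀ (n : ℕ) (β : FIC), Gn n β → ∀ g h : ℕ, Dq n g β → Dq n h β →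
  Dq n (g + h) β ∧ (∀ d, g + d ≡ h [MOD n] → Dq n d β)

/-- XFS (medium, uses WXY, PST, FAC, MWGQ.OLR, MWGQ.TLR, MWGQ.CNT, TLQ, DQS).  The first facts about
`x` and `y`.
Proof.  Twin of MWLE.XFS.  New: the two last facts: TLQ for `w = ψ w1`, `w' = ψ W`, `c = con k`,
`z = pin (m+1)` resp. `pin (m+2)`, `s = t1 σ` (WXY: all `con k`, `k ≤ m`, are in front of `z` in `w1`):
`Dq n ((n+1) * (W.count c - nn W c z))` (PST), and `(n+1) * b ≡ b`: DQS (2) with `g = 0` (`Dq n 0` is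
trivial). -/
def XfsStmt : Prop := ∀ (n : ℕ) (β : FIC), Gn n β → ¬ E0 n β → ¬ P0 n β → ¬ k0 β →
  ∀ (σ τ : List ℕ) (m : ℕ), Sg σ τ m → ∀ W : List ℕ,
    (KK n β σ m 1 W → 2 ≤ W.count 0 ∧ nn W 0 (t1 σ) = W.count 0 ∧ 1 ≤ nn W 0 (pin (m + 1))) ∧
    (KK n β σ m 0 W → (2 ≤ W.count 1 ∧ nn W 1 (t1 σ) = W.count 1 ∧ 1 ≤ nn W 1 (pin 0)) ∧
      ∀ k ≤ m, 1 ≤ nn W (con k) (pin (m + 1)) ∧
        (nn W (con k) (pin (m + 1)) < W.count (con k) → A0 n β) ∧
        Dq n (W.count (con k) - nn W (con k) (pin (m + 1))) β ∧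
        Dq n (W.count (con k) - nn W (con k) (pin (m + 2))) β)

/-- BTS (medium, uses MWGQ.PWX, MWLE.TEX, DDC).  The special form with at most `N` lights.
Proof.  Twin of MWLE.BTS: `v = v_0 z_0 v_1 .. z_(k-1) v_k`, `dn v_k x ~ x dn v_k` (`x` occurs in front:
`x ~ x^(n+1)`, DDC (1), back).  `k = 0`: `p x dn v_0 x q ~ p x^(n+2) dn v_0 q ~ p x^(2n+2) dn v_0 q ~
p x^(n+1) dn v_0 x q`.  `k ≥ 1`: `dn v_i ~ (dn v_i)^(n+1)` (DDC (2)), TEX for `dn v_k ++ q`, apply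
`LE n β τ (k-1)` with `X = [x]`, `C i = dn v_i`, `L i = [z_i]`; back. -/
def BtsStmt : Prop := ∀ (n : ℕ) (β : FIC), Gn n β → ∀ N : ℕ,
  (∀ k < N, ∀ τ : List ℕ, Tau τ k → LE n β τ k) → BtS n β N

/-- RIG (easy-medium, uses MWGQ.PWX, DDC, LER).  The second `x` is in front of the last light.
Proof.  `V := dn A ++ x :: (dq n Q v ++ x :: R)`.  `BtS`: `V ~ dn A x^(n+1) (dq Q v) x R ~
x^(n+1) (dn A) (dq Q v) x R` (DDC (1)).  So `x^n V ~ x^(2n+1) (dn A) (dq Q v) x R ~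
x^(n+1) (dn A) (dq Q v) x R ~ V`.  With `V ~ V1 = x lw4 x T`: `V1 ~ x^n V1 = x^(n+1) lw4 x T`.  LER. -/
def RigStmt : Prop := ∀ (n : ℕ) (β : FIC), Gn n β → ∀ (m : ℕ) (τ : List ℕ), Tau τ m →
  BtS n β m → ∀ (x : ℕ) (S L C : ℕ → ℕ), (x :: ((List.range (m + 1)).map S ++
    ((List.range (m + 1)).map L ++ (List.range (m + 1)).map C))).Nodup →
      ∀ (Q : ℕ → Bool) (A v R : List ℕ), (v.filter Q).length ≤ m → (v.filter Q).Nodup →
        (∀ c ∈ v, Q c = true → c ∈ R) →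
          RR β (dn n A ++ x :: (dq n Q v ++ x :: R))
            (x :: (lw4 n L C (m + 1) ++ (x :: tll S L τ))) → LE n β τ m

/-- CPX (medium).  The `x`-copy in `w1` and `w4`.  Twin of MWLE.CPX. -/
def CpxStmt : Prop := ∀ (n : ℕ) (σ τ : List ℕ) (m : ℕ), Sg σ τ m → ∀ d : Bool,
  ((wd n σ m d false).flatMap (psi n 1)).filter (Fx m) =
    (if d then List.replicate (n + 1) 0 else [0]) ++
    (lw4 n (fun i => pin (i + (m + 2))) (fun i => con (i + (m + 1))) (m + 1) ++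
      (0 :: tll (fun i => sep (i + (m + 2))) (fun i => pin (i + (m + 2))) τ))

/-- CPY (medium).  The `y`-copy and the twin copy in `w1`.  Twin of MWLE.CPY. -/
def CpyStmt : Prop := ∀ (n : ℕ) (σ τ : List ℕ) (m : ℕ), Sg σ τ m → (∀ i ∈ τ, i ≤ m) →
  ((wd n σ m false false).flatMap (psi n 0)).filter (Fu m) =
    1 :: (lw4 n (fun i => pin (i + 1)) con (m + 1) ++
      (1 :: tll (fun i => sep (i + 1)) (fun i => pin (i + 1)) τ)) ∧
  (((wd n σ m false false).flatMap (psi n 0)).filter (Fz m)).map (rz m) =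
    1 :: (lw4 n (fun i => pin (i + 1)) con m ++ (List.replicate ((n + 1) * (n + 1)) (con m) ++
      (1 :: pin (m + 1) :: tll (fun i => sep (i + 1)) (fun i => pin (i + 1)) τ)))

/-- RGX (medium, uses RIG, CPX, PST).  **Rigidity of `x`.**  Twin of MWLE.RGX: `W' := W.filter (Fx m)
= A ++ 0 :: (v ++ 0 :: R)`, `ψ A = dn n A` (only contents), `ψ v = dq n Q v` with
`Q c := decide (c % 5 ≠ 4)`. -/
def RgxStmt : Prop := ∀ (n : ℕ) (β : FIC), Gn n β → ∀ (σ τ : List ℕ) (m : ℕ), Tau τ m →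
  Sg σ τ m → BtS n β m → ∀ W : List ℕ, KK n β σ m 1 W → Fc σ m W → 2 ≤ W.count 0 →
    nn W 0 (t1 σ) = W.count 0 → 1 ≤ nn W 0 (pin (m + 1)) → 2 ≤ nn W 0 (pin (2 * m + 2)) →
      LE n β τ m

/-- RGY (medium, uses RIG, CPY, PST).  **Rigidity of `y`, first part.**  Twin of MWLE.RGY. -/
def RgyStmt : Prop := ∀ (n : ℕ) (β : FIC), Gn n β → ∀ (σ τ : List ℕ) (m : ℕ), Tau τ m →
  Sg σ τ m → BtS n β m → ∀ W : List ℕ, KK n β σ m 0 W → Fc σ m W → 2 ≤ W.count 1 →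
    nn W 1 (t1 σ) = W.count 1 → 1 ≤ nn W 1 (pin 0) → 2 ≤ nn W 1 (pin (m + 1)) → LE n β τ m

/-- TNF (medium, uses MWGQ.PWX, MWGN.SRT).  Normal form of the tails.  Twin of MWLE.TNF: the exponents
are `e k = W.count (pin k) - 1 ≥ 1`, `e k ≡ 1`, PWX (2) (`pin k ∈ A`) makes them `1`. -/
def TnfStmt : Prop := ∀ (n : ℕ) (β : FIC), Gn n β → ∀ (σ τ : List ℕ) (m : ℕ), Sg σ τ m →
  ∀ W : List ℕ, Fc σ m W → (∀ k ≤ 2 * m + 2, W.count (pin k) ≡ 2 [MOD n]) →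
  ∀ (P : ℕ → Bool) (A : List ℕ), (∀ k ≤ 2 * m + 2, P k = true → pin k ∈ A) →
    RR β (A ++ (sf W (t1 σ)).filter (fun c => decide (∃ k, k ≤ 2 * m + 2 ∧ P k = true ∧
      (c = sep k ∨ c = pin k)))) (A ++ tl (σ.filter P))

/-- RGC (medium, uses MWGQ.PWX, DDC).  Core of the comparison with the twin.
Proof.  Strong induction on the length of `G` (for all `P`).  `G = []`: equal.  Otherwise `A0 n β`.
Let `c` be the first letter of `G`, `g = G.count c ≥ 1`, `G' = G.filter (· ≠ c)`.  DDC (4):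
`dn G ~ c^((n+1)g) (dn G')`.  `P = P1 ++ c :: P2`, `dq Q P = dq Q P1 ++ c^(n+1) ++ dq Q P2`
(`Q c = false`).  `FS` with `p = dq Q P1`, `v = P2`, `v' = [z]`, `q = c^((n+1)g - 1) (dn G') R`:
`(dq Q P) z c^((n+1)g) (dn G') R ~ (dq Q P) c^n z c^((n+1)g) (dn G') R ~ (dq Q P) c^(2n) z c^(n+g) (dn G') R`
(PWX (2), `c` occurs in front) `~ (dq Q P) c^(2n+g) z c^n (dn G') R` (`Dq n g`: `0 ↦ c`, `1 ↦ z`,
`2 ↦ (dn G') R'`, `R = R' ++ z :: R''`) `~ (dq Q P) c^(2n+g) z (dn G') R` (`A0`, `2n + g ≥ 2`)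
`~ (dq Q P) c^((n+1)g) z (dn G') R = dq Q (P ++ replicate g c) z (dn G') R`.  Induction assumption for
`G'` with `P ++ replicate g c`: `~ (dq Q P) c^((n+1)g) (dn G') z R ~ (dq Q P) (dn G) z R` (DDC (4)). -/
def RgcStmt : Prop := ∀ (n : ℕ) (β : FIC), Gn n β → FS n β →
  ∀ (Q : ℕ → Bool) (P G R : List ℕ) (z : ℕ), (G ≠ [] → A0 n β) →
    (∀ c ∈ G, Dq n (G.count c) β) → (∀ c ∈ G, c ∈ P ∧ Q c = false) → Q z = true →
    ((P ++ [z]).filter Q).Nodup → (∀ c ∈ P, Q c = true → c ∈ R) → z ∈ R →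
      RR β (dq n Q P ++ z :: (dn n G ++ R)) (dq n Q P ++ (dn n G ++ z :: R))

/-- RGZ (medium-hard, uses MWLE.SPZ, TNF, RGC, CPY, PST, XFS, FAC, LER, DQS).  **Rigidity of `y`,
second part.**
Proof.  Twin of MWLE.RGZ with `ψ = psi n 0`, `dn`, `dq n`; `BtS` gives `V2 ~ 1^(n+1) .. = 1^n V2`, so
`V1 ~ V2 ~ 1^n V2 ~ 1^n V1 = 1^(n+1) lw4 1 T`.  New: the hypothesis `Dq n (G.count c)` of RGC: let
`c = con k ∈ G`, `k ≤ m`.  SPZ: `nn W c (pin (m+1)) = P.count c` (`nn W c z = nn (W.filter F) c z` if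
`F c = F z = true`, and `pin (m+1)` is not in `P`), `nn W c (pin (m+2)) = P.count c + G.count c`
(`pin (m+2)` is not in `P, G`).  With `D1 = W.count c - nn W c (pin (m+1))`,
`D2 = W.count c - nn W c (pin (m+2))` (XFS: `Dq n D1`, `Dq n D2`): `D2 + G.count c = D1`, DQS (2). -/
def RgzStmt : Prop := ∀ (n : ℕ) (β : FIC), Gn n β → ¬ E0 n β → ¬ P0 n β → ¬ k0 β → FS n β →
  ∀ (σ τ : List ℕ) (m : ℕ), Tau τ m → Sg σ τ m → BtS n β m → ∀ W : List ℕ,
    KK n β σ m 0 W → nn W 1 (pin (m + 2)) ≤ 1 → LE n β τ m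

/-- KFB (easy, uses FAC, XFS, RGX, RGY, RGZ, LEV, LER).  Facts of the two classes.  Twin of
MWLE.KFB. -/
def KfbStmt : Prop := ∀ (n : ℕ) (β : FIC), Gn n β → ¬ E0 n β → FS n β →
  ∀ (σ τ : List ℕ) (m : ℕ), Tau τ m → Sg σ τ m → BtS n β m → ¬ LE n β τ m → ∀ W : List ℕ,
    (KK n β σ m 1 W → Fb σ m W) ∧ (KK n β σ m 0 W → Fy σ m W)

end Pool.Agent.MWLQ
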